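import Mathlib
import Pool.Agent.H.MP_10444e_gt.B

set_option autoImplicit false

namespace Pool.Agent.Results.MP_10444e_gt.Independent

open Pool.Agent.H.MP_10444e_gt

/-- Q1 is equivalent, with no extra hypothesis, to the statement that every Scheepers set of reals
has all finite powers Menger; and Q1 fails under the continuum hypothesis. -/
theorem result :
    ((∀ X : Set ℝ, Scheepers X → ∀ f : ℝ → (ℕ → ℕ), ContinuousOn f X → Scheepers (G (f '' X))) ↔
      ∀ X : Set ℝ, Scheepers X → ∀ k : ℕ, Menger (Pow X k)) ∧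
    ((Cardinal.continuum : Cardinal.{0}) = Cardinal.aleph 1 →
      ¬ ∀ X : Set ℝ, Scheepers X → ∀ f : ℝ → (ℕ → ℕ), ContinuousOn f X → Scheepers (G (f '' X))) :=
  ⟨main, fun ch h => ch_real ch (main.1 h)⟩

end Pool.Agent.Results.MP_10444e_gt.Independent
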